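import Pool.Agent.helper21.OE.SpecD

set_option autoImplicit false

namespace Pool.Agent.OE

open MvPolynomial Matrix

theorem NEG (hACS : ACS_stmt) : NEG_stmt := by
  intro d t _ A _ _ f k N χ φ h hχ
  funext u v
  have hne : (-1 : Oz d t) ≠ 0 := neg_ne_zero.mpr one_ne_zero
  have h1 := h.equiv (-1 : GO d t) u v (by
    have e : ((-1 : GO d t) : Mat d t) 1 0 = 0 := by
      rw [Units.val_neg, Units.val_one, Matrix.neg_apply, Matrix.one_apply_ne (by decide), neg_zero]
    rw [e]
    exact dvd_zero _)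
  have e11 : ((-1 : GO d t) : Mat d t) 1 1 = -1 := by
    rw [Units.val_neg, Units.val_one, Matrix.neg_apply, Matrix.one_apply_eq]
  have em : ((-1 : GO d t) : Mat d t) = (-1 : Oz d t) • (1 : Mat d t) := by
    rw [Units.val_neg, Units.val_one, neg_smul, one_smul]
  have eu : ∀ w : Vec d t, ((-1 : GO d t) : Mat d t) *ᵥ w = (-1 : Oz d t) • w := by
    intro w
    rw [em, Matrix.smul_mulVec, Matrix.one_mulVec]
  rw [e11, eu, eu, h.smul_left _ _ _ hne, h.smul_right _ _ _ hne, em, hACS f (-1) k _ (h.hom u v)] at h1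
  have e1 : f ((-1 : Oz d t) * star (-1)) ^ k = 1 := by
    rw [star_neg, star_one, neg_mul_neg, one_mul, map_one, one_pow]
  rw [e1, one_smul] at h1
  have h2 : (1 - χ (-1)) • φ u v = 0 := by
    rw [sub_smul, one_smul, ← h1, sub_self]
  rcases smul_eq_zero.mp h2 with h3 | h3
  · exact absurd (sub_eq_zero.mp h3).symm hχ
  · exact h3

end Pool.Agent.OE
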